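import Pool.Agent.Helper29_MWV.RIG
import Pool.Agent.Helper60_MWV.LBF

/-!
Row LBK of squad MWV (MP_23468a_al), second proof.
-/

set_option autoImplicit false

namespace Pool.Agent.MWV.H29

open Pool.Agent.MWV

/-- the lights of the list are `a, …, a + n - 1`, in this order -/
def Lr (H : List ℕ) (a n : ℕ) : Prop := lgt H = (List.range' a n).map (fun i => 3 * i + 1)

theorem Lr_cr (g : ℕ → Bool) (d : ℕ) : ∀ k : ℕ, Lr (cr g [] d k) d (k + 1)
  | 0 => by
    change lgt [3 * d + 1] = _
    unfold lgt
    simp
  | k + 1 => by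
    change lgt (cr g [] d k ++ (mk g (k + 1) ++ ([] ++ [3 * (d + (k + 1)) + 1]))) = _
    have h1 : lgt (mk g (k + 1)) = [] := by
      apply lgt_heavy
      intro c hc
      unfold mk at hc
      split_ifs at hc
      · have : c = 3 * (k + 1) + 3 := by simpa using hc
        omega
      · simp at hc
    have h2 : lgt [3 * (d + (k + 1)) + 1] = [3 * (d + (k + 1)) + 1] := by
      unfold lgt; simp
    rw [lgt_append, lgt_append, List.nil_append, h1, h2, Lr_cr g d k, List.nil_append,
      List.range'_concat (n := k + 1), List.map_append]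
    simp

theorem lgtX {n h : ℕ} (hh : h % 3 = 0) : lgt (X n h) = [] :=
  lgt_heavy (fun c hc => by rw [List.eq_of_mem_replicate hc]; exact hh)

theorem lgt_one (i : ℕ) : lgt [3 * i + 1] = [3 * i + 1] := by unfold lgt; simp

theorem lgt_cons1 (i : ℕ) (L : List ℕ) : lgt ((3 * i + 1) :: L) = (3 * i + 1) :: lgt L := by
  rw [show (3 * i + 1) :: L = [3 * i + 1] ++ L from rfl, lgt_append, lgt_one]; rfl

theorem lgt_Lb (N : ℕ) (g : ℕ → Bool) (k d : ℕ) (hd : d ≤ 1) :
    lgt (Lb N g k d) = (List.range' 0 (k + 3)).map (fun i => 3 * i + 1) := by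
  have hm : (List.range' 0 (k + 3)).map (fun i => 3 * i + 1) =
      1 :: ((List.range' 1 (k + 1)).map (fun i => 3 * i + 1) ++ [3 * (k + 2) + 1]) := by
    rw [List.range'_succ, List.map_cons, List.range'_concat (n := k + 1), List.map_append]
    simp
    ring
  have hc := Lr_cr g 1 k
  unfold Lr at hc
  rcases Nat.le_one_iff_eq_zero_or_eq_one.1 hd with rfl | rfl
  · rw [H60.Lb0, hm, lgt_append, show (1 : ℕ) = 3 * 0 + 1 from rfl, lgt_cons1, lgt_append,
      lgt_append, lgt_one, lgtX (by rfl)]
    rw [show (3 * 0 + 1 : ℕ) = 1 from rfl, hc]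
    simp
  · rw [H60.Lb1, hm]
    rw [show (1 : ℕ) :: (List.replicate N 3 ++ (cr g [] 1 k ++ (3 * (k + 2) + 1) ::
      List.replicate N 3)) = (3 * 0 + 1) :: (List.replicate N 3 ++ (cr g [] 1 k ++
        (3 * (k + 2) + 1) :: List.replicate N 3)) from rfl, lgt_cons1, lgt_append, lgt_append,
      lgt_cons1, lgtX (by rfl), hc]
    simp

theorem filt_lgt (H : List ℕ) (p : ℕ → Bool) (hp : ∀ a ∈ H, p a = true → a % 3 ≠ 0) :
    H.filter p = (lgt H).filter p := by
  unfold lgt
  rw [List.filter_filter]
  apply List.filter_congr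
  intro a ha
  by_cases h : p a = true
  · simp [h, hp a ha h]
  · simp [h]

theorem filt_range (i a n : ℕ) (p : ℕ → Bool) (hp : ∀ t, p (3 * t + 1) = decide (t = i)) :
    ((List.range' a n).map (fun i => 3 * i + 1)).filter p =
      if a ≤ i ∧ i < a + n then [3 * i + 1] else [] := by
  induction n generalizing a with
  | zero =>
    have h : ¬ (a ≤ i ∧ i < a + 0) := by omega
    rw [if_neg h]; rfl
  | succ n ih =>
    rw [List.range'_succ, List.map_cons, List.filter_cons, ih (a + 1), hp a]
    by_cases h : a = i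
    · have h1 : ¬ (a + 1 ≤ i ∧ i < a + 1 + n) := by omega
      have h2 : a ≤ i ∧ i < a + (n + 1) := by omega
      rw [if_neg h1, if_pos h2]
      simp [h]
    · by_cases h2 : a ≤ i ∧ i < a + (n + 1)
      · have h1 : a + 1 ≤ i ∧ i < a + 1 + n := by omega
        rw [if_pos h1, if_pos h2]
        simp [h]
      · have h1 : ¬ (a + 1 ≤ i ∧ i < a + 1 + n) := by omega
        rw [if_neg h1, if_neg h2]
        simp [h]

theorem filt_range2 (i j m : ℕ) (hij : i < j) (hj : j < m) :
    ((List.range' 0 m).map (fun i => 3 * i + 1)).filter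
      (fun c => decide (c = 3 * i + 1 ∨ c = 3 * j + 1)) = [3 * i + 1, 3 * j + 1] := by
  obtain ⟨l, rfl⟩ : ∃ l, m = j + l := ⟨m - j, by omega⟩
  have e : List.range' 0 (j + l) = List.range' 0 j ++ List.range' j l := by
    have := List.range'_append (s := 0) (m := j) (n := l) (step := 1)
    simpa using this.symm
  rw [e, List.map_append, List.filter_append]
  have h1 : ((List.range' 0 j).map (fun i => 3 * i + 1)).filter
      (fun c => decide (c = 3 * i + 1 ∨ c = 3 * j + 1)) = [3 * i + 1] := by
    have a1 : ((List.range' 0 j).map (fun i => 3 * i + 1)).filter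
      (fun c => decide (c = 3 * i + 1 ∨ c = 3 * j + 1)) =
      ((List.range' 0 j).map (fun i => 3 * i + 1)).filter (fun c => decide (c = 3 * i + 1)) := by
      apply List.filter_congr
      intro c hc
      obtain ⟨t, ht, rfl⟩ := List.mem_map.1 hc
      have := List.mem_range'_1.1 ht
      have h : (3 * t + 1 = 3 * i + 1 ∨ 3 * t + 1 = 3 * j + 1) ↔ 3 * t + 1 = 3 * i + 1 := by omega
      simp only [h]
    rw [a1, filt_range i 0 j _ (by
      intro t
      by_cases h : t = i
      · simp [h]
      · simp [h]), if_pos (by omega)]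
  have h2 : ((List.range' j l).map (fun i => 3 * i + 1)).filter
      (fun c => decide (c = 3 * i + 1 ∨ c = 3 * j + 1)) = [3 * j + 1] := by
    have a1 : ((List.range' j l).map (fun i => 3 * i + 1)).filter
      (fun c => decide (c = 3 * i + 1 ∨ c = 3 * j + 1)) =
      ((List.range' j l).map (fun i => 3 * i + 1)).filter (fun c => decide (c = 3 * j + 1)) := by
      apply List.filter_congr
      intro c hc
      obtain ⟨t, ht, rfl⟩ := List.mem_map.1 hc
      have := List.mem_range'_1.1 ht
      have h : (3 * t + 1 = 3 * i + 1 ∨ 3 * t + 1 = 3 * j + 1) ↔ 3 * t + 1 = 3 * j + 1 := by omega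
      simp only [h]
    rw [a1, filt_range j j l _ (by
      intro t
      by_cases h : t = j
      · simp [h]
      · simp [h]), if_pos (by omega)]
  rw [h1, h2]
  rfl

theorem mk_mem {g : ℕ → Bool} {j a : ℕ} (h : a ∈ mk g j) : g j = true ∧ a = 3 * j + 3 := by
  unfold mk at h
  split_ifs at h with h1
  · exact ⟨h1, by simpa using h⟩
  · simp at h

theorem cr_heavy (g : ℕ → Bool) (d : ℕ) : ∀ (k a : ℕ), a % 3 = 0 →
    (a ∈ cr g [] d k ↔ ∃ j, 1 ≤ j ∧ j ≤ k ∧ g j = true ∧ a = 3 * j + 3)
  | 0, a, ha => by
    change a ∈ [3 * d + 1] ↔ _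
    constructor
    · intro h
      have : a = 3 * d + 1 := by simpa using h
      omega
    · rintro ⟨j, h1, h2, _⟩; omega
  | k + 1, a, ha => by
    change a ∈ cr g [] d k ++ (mk g (k + 1) ++ ([] ++ [3 * (d + (k + 1)) + 1])) ↔ _
    rw [List.mem_append, List.mem_append, cr_heavy g d k a ha]
    constructor
    · rintro (⟨j, h1, h2, h3, h4⟩ | h | h)
      · exact ⟨j, h1, by omega, h3, h4⟩
      · obtain ⟨h1, h2⟩ := mk_mem h
        exact ⟨k + 1, by omega, le_rfl, h1, h2⟩
      · have : a = 3 * (d + (k + 1)) + 1 := by simpa using h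
        omega
    · rintro ⟨j, h1, h2, h3, h4⟩
      by_cases hj : j = k + 1
      · subst hj
        right; left
        unfold mk
        rw [if_pos h3, h4]; simp
      · left; exact ⟨j, h1, by omega, h3, h4⟩

/-- the block around the marker of gap `j` -/
theorem cr_around (g : ℕ → Bool) {k j : ℕ} (hj1 : 1 ≤ j) (hjk : j ≤ k) (hg : g j = true) :
    ∃ A B : List ℕ, cr g [] 1 k = A ++ (3 * j + 3) :: B ∧ Lr A 1 j ∧ Lr B (j + 1) (k + 1 - j) ∧
      3 * j + 3 ∉ A ∧ 3 * j + 3 ∉ B := by
  obtain ⟨i, rfl⟩ : ∃ i, j = i + 1 := ⟨j - 1, by omega⟩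
  obtain ⟨l, rfl⟩ : ∃ l, k = i + (l + 1) := ⟨k - (i + 1), by omega⟩
  refine ⟨cr g [] 1 i, [3 * (i + 2) + 1] ++ (List.range l).flatMap
    (fun t => mk g (i + (t + 1) + 1) ++ ([] ++ [3 * (1 + (i + (t + 1) + 1)) + 1])), ?_, ?_, ?_,
    ?_, ?_⟩
  · rw [cr_split g [] 1 i (l + 1), List.range_succ_eq_map, List.flatMap_cons, List.flatMap_map]
    have : mk g (i + 0 + 1) = [3 * (i + 1) + 3] := by unfold mk; simp [hg]
    rw [this]
    have e : 3 * (1 + (i + 0 + 1)) + 1 = 3 * (i + 2) + 1 := by ring
    rw [e]
    simp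
  · have := Lr_cr g 1 i
    exact this
  · unfold Lr
    have e1 : i + (l + 1) + 1 - (i + 1) = l + 1 := by omega
    rw [e1]
    have key : ∀ l : ℕ, lgt ([3 * (i + 2) + 1] ++ (List.range l).flatMap
        (fun t => mk g (i + (t + 1) + 1) ++ ([] ++ [3 * (1 + (i + (t + 1) + 1)) + 1]))) =
        (List.range' (i + 1 + 1) (l + 1)).map (fun i => 3 * i + 1) := by
      intro l
      induction l with
      | zero => simp [lgt_one]
      | succ l ih =>
        rw [List.range_succ, List.flatMap_append, ← List.append_assoc, lgt_append, ih,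
          List.range'_concat (n := l + 1), List.map_append]
        congr 1
        simp only [List.flatMap_cons, List.flatMap_nil, List.append_nil, List.nil_append]
        rw [lgt_append, lgt_one, lgt_heavy (fun c hc => by
          obtain ⟨_, h⟩ := mk_mem hc; omega)]
        simp
        ring
    exact key l
  · intro h
    obtain ⟨j, _, h2, _, h4⟩ := (cr_heavy g 1 i _ (by omega)).1 h
    omega
  · intro h
    rcases List.mem_append.1 h with h | h
    · have : 3 * (i + 1) + 3 = 3 * (i + 2) + 1 := by simpa using h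
      omega
    · obtain ⟨t, _, h⟩ := List.mem_flatMap.1 h
      rcases List.mem_append.1 h with h | h
      · obtain ⟨_, h⟩ := mk_mem h
        omega
      · have : 3 * (i + 1) + 3 = 3 * (1 + (i + (t + 1) + 1)) + 1 := by simpa using h
        omega

theorem Lb_around (N : ℕ) (g : ℕ → Bool) {k j d : ℕ} (hd : d ≤ 1) (hj1 : 1 ≤ j) (hjk : j ≤ k)
    (hg : g j = true) : ∃ A B : List ℕ, Lb N g k d = A ++ (3 * j + 3) :: B ∧ Lr A 0 (j + 1) ∧
      Lr B (j + 1) (k + 2 - j) ∧ 3 * j + 3 ∉ A ∧ 3 * j + 3 ∉ B := by
  obtain ⟨A, B, h1, h2, h3, h4, h5⟩ := cr_around g hj1 hjk hg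
  have f1 : (List.range' 0 (j + 1)).map (fun i => 3 * i + 1) =
      1 :: (List.range' 1 j).map (fun i => 3 * i + 1) := by
    rw [List.range'_succ, List.map_cons]
  have f2 : (List.range' (j + 1) (k + 2 - j)).map (fun i => 3 * i + 1) =
      (List.range' (j + 1) (k + 1 - j)).map (fun i => 3 * i + 1) ++ [3 * (k + 2) + 1] := by
    have : k + 2 - j = (k + 1 - j) + 1 := by omega
    rw [this, List.range'_concat (n := k + 1 - j), List.map_append]
    congr 1
    simp
    omega
  unfold Lr at h2 h3
  have hx : ∀ n : ℕ, 3 * j + 3 ∉ X n 0 := by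
    intro n h
    have := List.eq_of_mem_replicate h
    omega
  have hy : ∀ n : ℕ, 3 * j + 3 ∉ X n 3 := by
    intro n h
    have := List.eq_of_mem_replicate h
    omega
  rcases Nat.le_one_iff_eq_zero_or_eq_one.1 hd with rfl | rfl
  · refine ⟨X N 0 ++ 1 :: A, B ++ (X N 0 ++ [3 * (k + 2) + 1]), ?_, ?_, ?_, ?_, ?_⟩
    · rw [H60.Lb0, h1]; simp
    · unfold Lr
      rw [lgt_append, show (1 : ℕ) :: A = (3 * 0 + 1) :: A from rfl, lgt_cons1, lgtX (by rfl), h2,
        f1]
      rfl
    · unfold Lr
      rw [lgt_append, lgt_append, lgt_one, lgtX (by rfl), h3, f2]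
      rfl
    · intro h
      rcases List.mem_append.1 h with h | h
      · exact hx _ h
      · rcases List.mem_cons.1 h with h | h
        · omega
        · exact h4 h
    · intro h
      rcases List.mem_append.1 h with h | h
      · exact h5 h
      · rcases List.mem_append.1 h with h | h
        · exact hx _ h
        · have : 3 * j + 3 = 3 * (k + 2) + 1 := by simpa using h
          omega
  · refine ⟨1 :: (X N 3 ++ A), B ++ (3 * (k + 2) + 1) :: X N 3, ?_, ?_, ?_, ?_, ?_⟩
    · rw [H60.Lb1, h1]; simp
    · unfold Lr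
      rw [show (1 : ℕ) :: (X N 3 ++ A) = (3 * 0 + 1) :: (X N 3 ++ A) from rfl, lgt_cons1,
        lgt_append, lgtX (by rfl), h2, f1]
      rfl
    · unfold Lr
      rw [lgt_append, lgt_cons1, lgtX (by rfl), h3, f2]
    · intro h
      rcases List.mem_cons.1 h with h | h
      · omega
      · rcases List.mem_append.1 h with h | h
        · exact hy _ h
        · exact h4 h
    · intro h
      rcases List.mem_append.1 h with h | h
      · exact h5 h
      · rcases List.mem_cons.1 h with h | h
        · omega
        · exact hy _ h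

theorem filt_Lr {H : List ℕ} {a n : ℕ} (h : Lr H a n) {i m : ℕ} (hm : m ∉ H) (p : ℕ → Bool)
    (hp1 : ∀ t, p (3 * t + 1) = decide (t = i)) (hp2 : ∀ c, c % 3 = 0 → p c = true → c = m) :
    H.filter p = if a ≤ i ∧ i < a + n then [3 * i + 1] else [] := by
  rw [filt_lgt H p, h, filt_range i a n p hp1]
  intro c hc hp h3
  exact hm (hp2 c h3 hp ▸ hc)

/-- **LBK.** -/
theorem lbk (hppm : PpmStmt) : LbkStmt := by
  intro N g k d P Q hN hk hd hp
  obtain ⟨hP, -, -, -⟩ := hppm k P Q hk hp
  have hmem : ∀ e, e ∈ PP k P ++ PP k Q ↔ e < k + 3 := fun e => by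
    rw [hP.mem_iff, List.mem_range]
  have hheavy : ∀ a, a % 3 = 0 → (a ∈ Lb N g k d ↔ a = 3 * d ∨ ∃ j, 1 ≤ j ∧ j ≤ k ∧ g j = true ∧
      a = 3 * j + 3) := by
    intro a ha
    rcases Nat.le_one_iff_eq_zero_or_eq_one.1 hd with rfl | rfl
    · rw [H60.Lb0]
      simp only [List.mem_append, List.mem_cons, List.mem_replicate, List.not_mem_nil, or_false,
        cr_heavy g 1 k a ha]
      constructor
      · rintro (⟨_, h⟩ | h | h | ⟨_, h⟩ | h)
        · left; omega
        · omega
        · right; exact h
        · left; omega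
        · omega
      · rintro (h | h)
        · left; exact ⟨by omega, by omega⟩
        · right; right; left; exact h
    · rw [H60.Lb1]
      simp only [List.mem_append, List.mem_cons, List.mem_replicate,
        cr_heavy g 1 k a ha]
      constructor
      · rintro (h | ⟨_, h⟩ | h | h | ⟨_, h⟩)
        · omega
        · left; omega
        · right; exact h
        · omega
        · left; omega
      · rintro (h | h)
        · right; left; exact ⟨by omega, by omega⟩
        · right; right; left; exact h
  have hl := lgt_Lb N g k d hd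
  refine ⟨⟨?_, ?_⟩, hheavy, ?_, ?_, ?_⟩
  · intro a ha
    by_cases h3 : a % 3 = 0
    · exact Or.inl h3
    · right
      have : a ∈ lgt (Lb N g k d) := by
        unfold lgt
        rw [List.mem_filter]
        exact ⟨ha, by simpa using h3⟩
      rw [hl] at this
      obtain ⟨t, ht, rfl⟩ := List.mem_map.1 this
      have := List.mem_range'_1.1 ht
      exact ⟨t, (hmem t).2 (by omega), rfl⟩
  · intro e he
    have he' := (hmem e).1 he
    have h1 : (Lb N g k d).count (3 * e + 1) = (lgt (Lb N g k d)).count (3 * e + 1) := by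
      unfold lgt
      rw [List.count_filter]
      simp
    rw [h1, hl]
    apply List.count_eq_one_of_mem
    · apply List.Nodup.map _ (List.nodup_range' (s := 0) (n := k + 3) (step := 1))
      intro a b h
      have : 3 * a + 1 = 3 * b + 1 := h
      omega
    · rw [List.mem_map]
      exact ⟨e, List.mem_range'_1.2 (by omega), rfl⟩
  · intro i j hij hj
    rw [filt_lgt _ _ (by
      intro a _ h
      have : a = 3 * i + 1 ∨ a = 3 * j + 1 := by simpa using h
      omega), hl, filt_range2 i j (k + 3) hij (by omega)]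
  · intro i j hi hj1 hjk hg
    obtain ⟨A, B, h1, h2, h3, h4, h5⟩ := Lb_around N g hd hj1 hjk hg
    rw [h1, List.filter_append, List.filter_cons_of_pos (by simp)]
    have hp1 : ∀ t, (fun c => decide (c = 3 * i + 1 ∨ c = 3 * j + 3)) (3 * t + 1) =
        decide (t = i) := by
      intro t
      have : (3 * t + 1 = 3 * i + 1 ∨ 3 * t + 1 = 3 * j + 3) ↔ t = i := by omega
      simp only [this]
    have hp2 : ∀ c, c % 3 = 0 → (fun c => decide (c = 3 * i + 1 ∨ c = 3 * j + 3)) c = true →
        c = 3 * j + 3 := by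
      intro c hc h
      have : c = 3 * i + 1 ∨ c = 3 * j + 3 := by simpa using h
      omega
    rw [filt_Lr h2 h4 _ hp1 hp2, filt_Lr h3 h5 _ hp1 hp2]
    by_cases hij : i ≤ j
    · rw [if_pos (by omega), if_neg (by omega), if_pos hij]; rfl
    · rw [if_neg (by omega), if_pos (by omega), if_neg hij]; rfl
  · intro j hj1 hjk hg
    obtain ⟨A, B, h1, h2, h3, h4, h5⟩ := Lb_around N g hd hj1 hjk hg
    rw [h1, List.filter_append, List.filter_cons_of_pos (by simp)]
    have fA : A.filter (fun c => decide (c = 3 * j + 1 ∨ c = 3 * j + 3 ∨ c = 3 * (j + 1) + 1)) =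
        [3 * j + 1] := by
      have e : A.filter (fun c => decide (c = 3 * j + 1 ∨ c = 3 * j + 3 ∨ c = 3 * (j + 1) + 1)) =
          A.filter (fun c => decide (c = 3 * j + 1)) := by
        apply List.filter_congr
        intro c hc
        have a1 : c ≠ 3 * j + 3 := fun h => h4 (h ▸ hc)
        have a2 : c ≠ 3 * (j + 1) + 1 := by
          rintro rfl
          have : 3 * (j + 1) + 1 ∈ lgt A := by
            unfold lgt
            rw [List.mem_filter]
            exact ⟨hc, by simp⟩
          rw [h2] at this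
          obtain ⟨t, ht, h⟩ := List.mem_map.1 this
          have := List.mem_range'_1.1 ht
          omega
        have : (c = 3 * j + 1 ∨ c = 3 * j + 3 ∨ c = 3 * (j + 1) + 1) ↔ c = 3 * j + 1 := by
          constructor
          · rintro (h | h | h)
            · exact h
            · exact absurd h a1
            · exact absurd h a2
          · exact Or.inl
        simp only [this]
      rw [e, filt_Lr (i := j) (m := 3 * j + 3) h2 h4 _ (by
        intro t
        have : (3 * t + 1 = 3 * j + 1) ↔ t = j := by omega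
        simp only [this]) (by
        intro c hc h
        have : c = 3 * j + 1 := by simpa using h
        omega), if_pos (by omega)]
    have fB : B.filter (fun c => decide (c = 3 * j + 1 ∨ c = 3 * j + 3 ∨ c = 3 * (j + 1) + 1)) =
        [3 * (j + 1) + 1] := by
      have e : B.filter (fun c => decide (c = 3 * j + 1 ∨ c = 3 * j + 3 ∨ c = 3 * (j + 1) + 1)) =
          B.filter (fun c => decide (c = 3 * (j + 1) + 1)) := by
        apply List.filter_congr
        intro c hc
        have a1 : c ≠ 3 * j + 3 := fun h => h5 (h ▸ hc)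
        have a2 : c ≠ 3 * j + 1 := by
          rintro rfl
          have : 3 * j + 1 ∈ lgt B := by
            unfold lgt
            rw [List.mem_filter]
            exact ⟨hc, by simp⟩
          rw [h3] at this
          obtain ⟨t, ht, h⟩ := List.mem_map.1 this
          have := List.mem_range'_1.1 ht
          omega
        have : (c = 3 * j + 1 ∨ c = 3 * j + 3 ∨ c = 3 * (j + 1) + 1) ↔ c = 3 * (j + 1) + 1 := by
          constructor
          · rintro (h | h | h)
            · exact absurd h a2
            · exact absurd h a1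
            · exact h
          · exact fun h => Or.inr (Or.inr h)
        simp only [this]
      rw [e, filt_Lr (i := j + 1) (m := 3 * j + 3) h3 h5 _ (by
        intro t
        have : (3 * t + 1 = 3 * (j + 1) + 1) ↔ t = j + 1 := by omega
        simp only [this]) (by
        intro c hc h
        have : c = 3 * (j + 1) + 1 := by simpa using h
        omega), if_pos (by omega)]
    rw [fA, fB]
    rfl

end Pool.Agent.MWV.H29
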