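import Pool.Agent.MWV.Stmts

/-!
Row RIG of squad MWV (MP_23468a_al).
-/

set_option autoImplicit false

namespace Pool.Agent.MWV.H29

open Pool.Agent.MWV

variable {N : ℕ} {S : List ℕ → List ℕ → Prop}

theorem zz (hvy : HvyStmt) (w : Wo N S) {a b : ℕ} (ha : 1 ≤ a) (hb : 1 ≤ b) (h : a % N = b % N) :
    S (X a 0) (X b 0) := by
  apply hvy N S w
  · intro c hc; rw [List.eq_of_mem_replicate hc]
  · intro c hc; rw [List.eq_of_mem_replicate hc]
  · intro c
    rw [List.mem_replicate, List.mem_replicate]
    constructor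
    · rintro ⟨_, h2⟩; exact ⟨by omega, h2⟩
    · rintro ⟨_, h2⟩; exact ⟨by omega, h2⟩
  · intro c
    rw [List.count_replicate, List.count_replicate]
    by_cases hc : 0 = c
    · simp [hc, h]
    · have : ((0 : ℕ) == c) = false := by simpa using hc
      simp [this]

/-- the letter `0` becomes `X` -/
def g0 (N : ℕ) (a : ℕ) : List ℕ := if a = 0 then X N 0 else [a]

/-- an `X` behind every marker -/
def th (N : ℕ) (a : ℕ) : List ℕ := if a % 3 = 0 ∧ a ≠ 0 then a :: X N 0 else [a]

theorem lgt_append (a b : List ℕ) : lgt (a ++ b) = lgt a ++ lgt b := by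
  unfold lgt; rw [List.filter_append]

theorem lgt_heavy {a : List ℕ} (h : ∀ c ∈ a, c % 3 = 0) : lgt a = [] := by
  unfold lgt
  rw [List.filter_eq_nil_iff]
  intro c hc
  simp [h c hc]

theorem lgt_X (n : ℕ) : lgt (X n 0) = [] := lgt_heavy (fun c hc => by
  rw [List.eq_of_mem_replicate hc])

theorem lgt_th (a : ℕ) : lgt (th N a) = lgt [a] := by
  unfold th
  split_ifs with h
  · have : a :: X N 0 = [a] ++ X N 0 := rfl
    rw [this, lgt_append, lgt_X, List.append_nil]
  · rfl

theorem lgt_flatMap_th (a : List ℕ) : lgt (a.flatMap (th N)) = lgt a := by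
  induction a with
  | nil => rfl
  | cons c a ih =>
    rw [List.flatMap_cons, lgt_append, lgt_th, ih]
    have : c :: a = [c] ++ a := rfl
    rw [this, lgt_append]

theorem lgt_g0 (a : ℕ) : lgt (g0 N a) = lgt [a] := by
  unfold g0
  split_ifs with h
  · rw [lgt_X, h]; rfl
  · rfl

theorem lgt_flatMap_g0 (a : List ℕ) : lgt (a.flatMap (g0 N)) = lgt a := by
  induction a with
  | nil => rfl
  | cons c a ih =>
    rw [List.flatMap_cons, lgt_append, lgt_g0, ih]
    have : c :: a = [c] ++ a := rfl
    rw [this, lgt_append]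

theorem mem_th {c a : ℕ} (h : c ∈ th N a) (hc : c % 3 ≠ 0) : c = a := by
  unfold th at h
  split_ifs at h with h1
  · rcases List.mem_cons.1 h with h2 | h2
    · exact h2
    · rw [List.eq_of_mem_replicate h2] at hc; exact absurd rfl hc
  · simpa using h

theorem mem_g0 {c a : ℕ} (h : c ∈ g0 N a) (hc : c % 3 ≠ 0) : c = a := by
  unfold g0 at h
  split_ifs at h with h1
  · rw [List.eq_of_mem_replicate h] at hc; exact absurd rfl hc
  · simpa using h

/-- insertion of `X` behind the markers -/
theorem fill_aux (w : Wo N S) {k : ℕ} (hf : Free N S k) (p q : List ℕ) : ∀ (b a : List ℕ),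
    (lgt (a ++ b)).length ≤ k → (lgt (a ++ b)).Nodup →
      (∀ c ∈ a ++ b, c % 3 ≠ 0 → c ∈ p ∨ c ∈ q) →
        S (p ++ 0 :: (a ++ (b ++ 0 :: q))) (p ++ 0 :: (a ++ (b.flatMap (th N) ++ 0 :: q)))
  | [], a, _, _, _ => w.refl _
  | c :: b, a, h1, h2, h3 => by
    have e : a ++ c :: b = (a ++ [c]) ++ b := by simp
    by_cases hc : c % 3 = 0 ∧ c ≠ 0
    · -- insert
      have i1 := hf p q (a ++ [c]) b 0 rfl (by rw [← e]; exact h1) (by rw [← e]; exact h2)
        (by rw [← e]; exact h3)
      have l1 : lgt (((a ++ [c]) ++ X N 0) ++ b) = lgt (a ++ c :: b) := by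
        rw [e, lgt_append, lgt_append, lgt_X, List.append_nil, ← lgt_append]
      have i2 := fill_aux w hf p q b ((a ++ [c]) ++ X N 0) (by rw [l1]; exact h1)
        (by rw [l1]; exact h2) (by
          intro d hd hd3
          apply h3 d _ hd3
          rw [e]
          rcases List.mem_append.1 hd with hd | hd
          · rcases List.mem_append.1 hd with hd | hd
            · exact List.mem_append_left _ hd
            · rw [List.eq_of_mem_replicate hd] at hd3; exact absurd rfl hd3
          · exact List.mem_append_right _ hd)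
      have e1 : p ++ 0 :: (a ++ [c] ++ (b ++ 0 :: q)) = p ++ 0 :: (a ++ (c :: b ++ 0 :: q)) := by
        simp
      have e2 : p ++ 0 :: (a ++ [c] ++ (X N 0 ++ (b ++ 0 :: q))) =
          p ++ 0 :: (a ++ [c] ++ X N 0 ++ (b ++ 0 :: q)) := by simp
      have e3 : p ++ 0 :: (a ++ [c] ++ X N 0 ++ (b.flatMap (th N) ++ 0 :: q)) =
          p ++ 0 :: (a ++ ((c :: b).flatMap (th N) ++ 0 :: q)) := by
        have : th N c = c :: X N 0 := by unfold th; rw [if_pos hc]
        rw [List.flatMap_cons, this]; simp
      rw [e1, e2] at i1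
      rw [e3] at i2
      exact w.trans i1 i2
    · have i2 := fill_aux w hf p q b (a ++ [c]) (by rw [← e]; exact h1) (by rw [← e]; exact h2)
        (by rw [← e]; exact h3)
      have e1 : p ++ 0 :: (a ++ [c] ++ (b ++ 0 :: q)) = p ++ 0 :: (a ++ (c :: b ++ 0 :: q)) := by
        simp
      have e3 : p ++ 0 :: (a ++ [c] ++ (b.flatMap (th N) ++ 0 :: q)) =
          p ++ 0 :: (a ++ ((c :: b).flatMap (th N) ++ 0 :: q)) := by
        have : th N c = [c] := by unfold th; rw [if_neg hc]
        rw [List.flatMap_cons, this]; simp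
      rw [e1, e3] at i2
      exact i2

theorem X_snoc (hN : 1 ≤ N) : X N 0 = X (N - 1) 0 ++ [0] := by
  have : N = (N - 1) + 1 := by omega
  conv_lhs => rw [this]
  exact List.replicate_succ'

theorem X_cons (hN : 1 ≤ N) : X N 0 = 0 :: X (N - 1) 0 := by
  have : N = (N - 1) + 1 := by omega
  conv_lhs => rw [this]
  exact List.replicate_succ

theorem fill_th (w : Wo N S) {k : ℕ} (hf : Free N S k) (p q m : List ℕ)
    (h1 : (lgt m).length ≤ k) (h2 : (lgt m).Nodup) (h3 : ∀ c ∈ m, c % 3 ≠ 0 → c ∈ p ∨ c ∈ q) :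
    S (p ++ (X N 0 ++ (m ++ (X N 0 ++ q)))) (p ++ (X N 0 ++ (m.flatMap (th N) ++ (X N 0 ++ q)))) := by
  have h := fill_aux w hf (p ++ X (N - 1) 0) (X (N - 1) 0 ++ q) m [] h1 h2 (by
    intro c hc hc3
    rcases h3 c hc hc3 with h | h
    · exact Or.inl (List.mem_append_left _ h)
    · exact Or.inr (List.mem_append_right _ h))
  have e : ∀ u : List ℕ, p ++ X (N - 1) 0 ++ 0 :: ([] ++ (u ++ 0 :: (X (N - 1) 0 ++ q))) =
      p ++ (X N 0 ++ (u ++ (X N 0 ++ q))) := by
    intro u
    have a1 : X N 0 ++ (u ++ (X N 0 ++ q)) =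
        (X (N - 1) 0 ++ [0]) ++ (u ++ ((0 :: X (N - 1) 0) ++ q)) := by
      rw [← X_snoc w.pos, ← X_cons w.pos]
    rw [a1]; simp
  rw [e, e] at h
  exact h

/-! ### the words `cr` -/

theorem cr_split (g : ℕ → Bool) (s : List ℕ) (d i : ℕ) : ∀ l : ℕ, cr g s d (i + l) =
    cr g s d i ++ (List.range l).flatMap
      (fun t => mk g (i + t + 1) ++ (s ++ [3 * (d + (i + t + 1)) + 1]))
  | 0 => by simp
  | l + 1 => by
    rw [← Nat.add_assoc]
    change cr g s d (i + l) ++ (mk g (i + l + 1) ++ (s ++ [3 * (d + (i + l + 1)) + 1])) = _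
    rw [cr_split g s d i l, List.range_succ, List.flatMap_append]
    simp

theorem th_light (i : ℕ) : th N (3 * i + 1) = [3 * i + 1] := by
  unfold th
  rw [if_neg]
  intro h; omega

theorem blk_th (g : ℕ → Bool) {j i : ℕ} (hg : g (j + 1) = true) :
    (mk g (j + 1) ++ ([] ++ [3 * i + 1])).flatMap (th N) =
      mk g (j + 1) ++ (X N 0 ++ [3 * i + 1]) := by
  unfold mk
  rw [if_pos hg]
  have : th N (3 * (j + 1) + 3) = (3 * (j + 1) + 3) :: X N 0 := by
    unfold th
    rw [if_pos]
    constructor <;> omega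
  simp only [List.nil_append, List.cons_append, List.flatMap_cons, List.flatMap_nil, this,
    th_light, List.append_nil, List.cons_append]

theorem cr_th (g : ℕ → Bool) (d : ℕ) : ∀ k : ℕ, (∀ j, 1 ≤ j → j ≤ k → g j = true) →
    (cr g [] d k).flatMap (th N) = cr g (X N 0) d k
  | 0, _ => by
    change [3 * d + 1].flatMap (th N) = [3 * d + 1]
    simp [th_light]
  | k + 1, h => by
    change (cr g [] d k ++ (mk g (k + 1) ++ ([] ++ [3 * (d + (k + 1)) + 1]))).flatMap (th N) = _
    rw [List.flatMap_append, cr_th g d k (fun j a b => h j a (by omega)),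
      blk_th g (h (k + 1) (by omega) (by omega))]
    rfl

theorem tl_th (g : ℕ → Bool) (d i l : ℕ) (h : ∀ t < l, g (i + t + 1) = true) :
    ((List.range l).flatMap (fun t => mk g (i + t + 1) ++ ([] ++ [3 * (d + (i + t + 1)) + 1]))).flatMap
      (th N) = (List.range l).flatMap
        (fun t => mk g (i + t + 1) ++ (X N 0 ++ [3 * (d + (i + t + 1)) + 1])) := by
  rw [List.flatMap_assoc]
  apply List.flatMap_congr
  intro t ht
  exact blk_th g (h t (List.mem_range.1 ht))

theorem cr_mem_light (g : ℕ → Bool) (s : List ℕ) (hs : ∀ a ∈ s, a % 3 = 0) (d : ℕ) : ∀ (k a : ℕ),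
    a ∈ cr g s d k → a % 3 ≠ 0 → ∃ i ≤ k, a = 3 * (d + i) + 1
  | 0, a, h, _ => ⟨0, le_rfl, by
      have : a ∈ [3 * d + 1] := h
      simpa using this⟩
  | k + 1, a, h, h3 => by
    have : a ∈ cr g s d k ++ (mk g (k + 1) ++ (s ++ [3 * (d + (k + 1)) + 1])) := h
    rcases List.mem_append.1 this with h1 | h1
    · obtain ⟨i, hi, e⟩ := cr_mem_light g s hs d k a h1 h3
      exact ⟨i, by omega, e⟩
    · rcases List.mem_append.1 h1 with h1 | h1
      · unfold mk at h1
        split_ifs at h1
        · have : a = 3 * (k + 1) + 3 := by simpa using h1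
          omega
        · simp at h1
      · rcases List.mem_append.1 h1 with h1 | h1
        · exact absurd (hs a h1) h3
        · exact ⟨k + 1, le_rfl, by simpa using h1⟩

theorem cr_no0 (g : ℕ → Bool) (d : ℕ) : ∀ (k a : ℕ), a ∈ cr g [] d k → a ≠ 0
  | 0, a, h => by
    have : a ∈ [3 * d + 1] := h
    have : a = 3 * d + 1 := by simpa using this
    omega
  | k + 1, a, h => by
    have : a ∈ cr g [] d k ++ (mk g (k + 1) ++ ([] ++ [3 * (d + (k + 1)) + 1])) := h
    rcases List.mem_append.1 this with h1 | h1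
    · exact cr_no0 g d k a h1
    · rcases List.mem_append.1 h1 with h1 | h1
      · unfold mk at h1
        split_ifs at h1
        · have : a = 3 * (k + 1) + 3 := by simpa using h1
          omega
        · simp at h1
      · have : a = 3 * (d + (k + 1)) + 1 := by simpa using h1
        omega

theorem cr_no2 (g : ℕ → Bool) (d : ℕ) : ∀ (k a : ℕ), a ∈ cr g [] d k → a % 3 ≠ 2
  | 0, a, h => by
    have : a ∈ [3 * d + 1] := h
    have : a = 3 * d + 1 := by simpa using this
    omega
  | k + 1, a, h => by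
    have : a ∈ cr g [] d k ++ (mk g (k + 1) ++ ([] ++ [3 * (d + (k + 1)) + 1])) := h
    rcases List.mem_append.1 this with h1 | h1
    · exact cr_no2 g d k a h1
    · rcases List.mem_append.1 h1 with h1 | h1
      · unfold mk at h1
        split_ifs at h1
        · have : a = 3 * (k + 1) + 3 := by simpa using h1
          omega
        · simp at h1
      · have : a = 3 * (d + (k + 1)) + 1 := by simpa using h1
        omega

/-! ### substitutions which fix the places -/

theorem W_flat (f : ℕ → List ℕ) (hf : ∀ a, a % 3 ≠ 0 → f a = [a]) (P Q L : List ℕ) :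
    (W P Q L).flatMap f = W P Q (L.flatMap f) := by
  have hpl : ∀ P : List ℕ, (pl P).flatMap f = pl P := by
    intro P
    induction P with
    | nil => rfl
    | cons e P ih =>
      have : pl (e :: P) = [3 * e + 8, 3 * e + 1] ++ pl P := by
        unfold pl; rw [List.flatMap_cons]
      rw [this, List.flatMap_append, ih]
      simp [hf (3 * e + 8) (by omega), hf (3 * e + 1) (by omega)]
  have hpr : ∀ P : List ℕ, (pr P).flatMap f = pr P := by
    intro P
    induction P with
    | nil => rfl
    | cons e P ih =>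
      have : pr (e :: P) = [3 * e + 1, 3 * e + 8] ++ pr P := by
        unfold pr; rw [List.flatMap_cons]
      rw [this, List.flatMap_append, ih]
      simp [hf (3 * e + 8) (by omega), hf (3 * e + 1) (by omega)]
  unfold W
  rw [List.flatMap_append, List.flatMap_cons, List.flatMap_append, List.flatMap_cons, hpl, hpr,
    hf 2 (by omega), hf 5 (by omega)]
  simp

theorem mem_pl {P : List ℕ} {e : ℕ} (h : e ∈ P) : 3 * e + 1 ∈ pl P := by
  unfold pl
  rw [List.mem_flatMap]
  exact ⟨e, h, by simp⟩

theorem mem_pr {P : List ℕ} {e : ℕ} (h : e ∈ P) : 3 * e + 1 ∈ pr P := by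
  unfold pr
  rw [List.mem_flatMap]
  exact ⟨e, h, by simp⟩


theorem wapp (w : Wo N S) {P Q L L' : List ℕ} (h : S L L') : S (W P Q L) (W P Q L') := by
  unfold W
  exact w.app (w.refl _) (w.app (w.refl [2]) (w.app h (w.refl _)))

theorem side1 {k : ℕ} {m T : List ℕ} (hc : ∀ c ∈ m, c % 3 ≠ 0 → m.count c ≤ 1)
    (hT : ∀ c ∈ m, c % 3 ≠ 0 → c ∈ T) (hl : T.length ≤ k) :
    (lgt m).length ≤ k ∧ (lgt m).Nodup := by
  have hn : (lgt m).Nodup := by
    rw [List.nodup_iff_count_le_one]
    intro a
    by_cases ha : a ∈ lgt m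
    · have h1 : a ∈ m ∧ a % 3 ≠ 0 := by
        have := List.mem_filter.1 ha
        exact ⟨this.1, by simpa using this.2⟩
      have h2 : (lgt m).count a ≤ m.count a := List.Sublist.count_le _ List.filter_sublist
      have := hc a h1.1 h1.2
      omega
    · rw [List.count_eq_zero_of_not_mem ha]; omega
  refine ⟨?_, hn⟩
  have hs : lgt m ⊆ T := by
    intro a ha
    have := List.mem_filter.1 ha
    exact hT a this.1 (by simpa using this.2)
  exact ((hn.subperm hs).length_le).trans hl

theorem flat_zero (n : ℕ) : ∀ m : ℕ, (X m 0).flatMap (g0 n) = X (m * n) 0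
  | 0 => by simp
  | m + 1 => by
    have : X (m + 1) 0 = 0 :: X m 0 := List.replicate_succ
    rw [this, List.flatMap_cons, flat_zero n m]
    have e : g0 n 0 = X n 0 := by unfold g0; rw [if_pos rfl]
    rw [e]
    show List.replicate n 0 ++ List.replicate (m * n) 0 = List.replicate ((m + 1) * n) 0
    rw [List.replicate_append_replicate]
    congr 1
    ring

theorem flat_id (f : ℕ → List ℕ) : ∀ L : List ℕ, (∀ a ∈ L, f a = [a]) → L.flatMap f = L
  | [], _ => rfl
  | a :: L, h => by
    rw [List.flatMap_cons, h a (by simp), flat_id f L (fun b hb => h b (by simp [hb]))]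
    rfl

theorem g0_ne {n a : ℕ} (h : a ≠ 0) : g0 n a = [a] := by unfold g0; rw [if_neg h]

theorem ZZ (hvy : HvyStmt) (w : Wo N S) : S (X N 0 ++ X N 0) (X N 0) := by
  have hN := w.pos
  rw [show X N 0 ++ X N 0 = X (N + N) 0 from List.replicate_append_replicate]
  exact zz hvy w (by omega) hN (by simp)

/-- the last inserted group -/
theorem gap (w : Wo N S) {k : ℕ} (hk : 2 ≤ k) (hf : Free N S k) {P Q : List ℕ}
    (hp : (P ++ Q).Perm (List.range (k + 1))) {g : ℕ → Bool} (hg : Gone g k) {j : ℕ}
    (hj1 : 1 ≤ j) (hjk : j ≤ k) (hgj : g j = false) :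
    S (W P Q (X N 0 ++ ((cr g [] 0 k).flatMap (th N) ++ X N 0)))
      (W P Q (X N 0 ++ (cr g (X N 0) 0 k ++ X N 0))) := by
  have hN := w.pos
  have hall : ∀ i, 1 ≤ i → i ≤ k → i ≠ j → g i = true := by
    intro i h1 h2 h3
    by_contra hc
    have : g i = false := by simpa using hc
    exact h3 (hg i j h1 h2 hj1 hjk this hgj)
  obtain ⟨l, hl⟩ : ∃ l, k = (j - 1) + (l + 1) := ⟨k - j, by omega⟩
  obtain ⟨i, rfl⟩ : ∃ i, j = i + 1 := ⟨j - 1, by omega⟩
  have hl' : k = i + (l + 1) := by omega
  -- the tail behind gap `i + 1`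
  set T : List ℕ := (List.range l).flatMap
    (fun t => mk g (i + (t + 1) + 1) ++ (X N 0 ++ [3 * (0 + (i + (t + 1) + 1)) + 1])) with hT
  have e1 : cr g (X N 0) 0 k = cr g (X N 0) 0 i ++ (X N 0 ++ ([3 * (i + 1) + 1] ++ T)) := by
    rw [hl', cr_split g (X N 0) 0 i (l + 1), List.range_succ_eq_map, List.flatMap_cons,
      List.flatMap_map]
    have : mk g (i + 0 + 1) = [] := by unfold mk; simp [hgj]
    rw [this, hT]
    simp
  have e2 : (cr g [] 0 k).flatMap (th N) = cr g (X N 0) 0 i ++ ([3 * (i + 1) + 1] ++ T) := by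
    rw [hl', cr_split g [] 0 i (l + 1), List.flatMap_append,
      cr_th g 0 i (fun t h1 h2 => hall t h1 (by omega) (by omega))]
    congr 1
    rw [List.range_succ_eq_map, List.flatMap_cons, List.flatMap_map, List.flatMap_append]
    have a1 : (mk g (i + 0 + 1) ++ ([] ++ [3 * (0 + (i + 0 + 1)) + 1])).flatMap (th N) =
        [3 * (i + 1) + 1] := by
      have : mk g (i + 0 + 1) = [] := by unfold mk; simp [hgj]
      rw [this]
      simp only [List.nil_append, List.flatMap_cons, List.flatMap_nil, List.append_nil]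
      have : 3 * (0 + (i + 0 + 1)) + 1 = 3 * (i + 1) + 1 := by ring
      rw [this, th_light]
    rw [a1, hT, List.flatMap_assoc]
    congr 1
    apply List.flatMap_congr
    intro t ht
    have ht' := List.mem_range.1 ht
    exact blk_th g (hall (i + (t + 1) + 1) (by omega) (by omega) (by omega))
  rw [e1, e2]
  -- the left neighbour
  obtain ⟨A, hA⟩ : ∃ A, X N 0 ++ cr g (X N 0) 0 i = A ++ 0 :: [3 * i + 1] := by
    rcases i with _ | i
    · refine ⟨X (N - 1) 0, ?_⟩
      change X N 0 ++ [1] = _
      rw [X_snoc hN]; simp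
    · refine ⟨X N 0 ++ (cr g (X N 0) 0 i ++ (mk g (i + 1) ++ X (N - 1) 0)), ?_⟩
      change X N 0 ++ (cr g (X N 0) 0 i ++ (mk g (i + 1) ++ (X N 0 ++ [3 * (0 + (i + 1)) + 1]))) = _
      have : 3 * (0 + (i + 1)) + 1 = 3 * (i + 1) + 1 := by ring
      rw [this]
      conv_lhs => rw [X_snoc hN]
      rw [← X_snoc hN]
      conv_lhs => rw [show mk g (i + 1) ++ (X N 0 ++ [3 * (i + 1) + 1]) =
        mk g (i + 1) ++ ((X (N - 1) 0 ++ [0]) ++ [3 * (i + 1) + 1]) by rw [← X_snoc hN]]
      simp
  -- the right neighbour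
  obtain ⟨hs, B, hhs, hB⟩ : ∃ hs B : List ℕ, (∀ a ∈ hs, a % 3 = 0) ∧
      T ++ X N 0 = hs ++ 0 :: B := by
    rcases l with _ | l
    · exact ⟨[], X (N - 1) 0, by simp, by rw [hT, X_cons hN]; simp⟩
    · have hT' : T = mk g (i + (0 + 1) + 1) ++ (X N 0 ++ ([3 * (0 + (i + (0 + 1) + 1)) + 1] ++
          (List.range l).flatMap (fun t => mk g (i + (t + 1 + 1) + 1) ++
            (X N 0 ++ [3 * (0 + (i + (t + 1 + 1) + 1)) + 1])))) := by
        rw [hT, List.range_succ_eq_map, List.flatMap_cons, List.flatMap_map]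
        simp
      refine ⟨mk g (i + (0 + 1) + 1), X (N - 1) 0 ++ ([3 * (0 + (i + (0 + 1) + 1)) + 1] ++
          (List.range l).flatMap (fun t => mk g (i + (t + 1 + 1) + 1) ++
            (X N 0 ++ [3 * (0 + (i + (t + 1 + 1) + 1)) + 1]))) ++ X N 0, ?_, ?_⟩
      · intro a ha
        unfold mk at ha
        split_ifs at ha
        · have : a = 3 * (i + (0 + 1) + 1) + 3 := by simpa using ha
          omega
        · simp at ha
      · rw [hT']
        have : X N 0 ++ ([3 * (0 + (i + (0 + 1) + 1)) + 1] ++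
          (List.range l).flatMap (fun t => mk g (i + (t + 1 + 1) + 1) ++
            (X N 0 ++ [3 * (0 + (i + (t + 1 + 1) + 1)) + 1]))) =
          (0 :: X (N - 1) 0) ++ ([3 * (0 + (i + (0 + 1) + 1)) + 1] ++
          (List.range l).flatMap (fun t => mk g (i + (t + 1 + 1) + 1) ++
            (X N 0 ++ [3 * (0 + (i + (t + 1 + 1) + 1)) + 1]))) := by rw [← X_cons hN]
        rw [this]
        simp
  have hmem : ∀ e, e ≤ k → 3 * e + 1 ∈ pl P ++ 2 :: A ∨ 3 * e + 1 ∈ B ++ 5 :: pr Q := by
    intro e he
    have : e ∈ P ++ Q := hp.symm.subset (List.mem_range.2 (by omega))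
    rcases List.mem_append.1 this with h | h
    · left; exact List.mem_append_left _ (mem_pl h)
    · right; exact List.mem_append_right _ (List.mem_cons_of_mem _ (mem_pr h))
  have lg : lgt ([3 * i + 1] ++ ([3 * (i + 1) + 1] ++ hs)) = [3 * i + 1, 3 * (i + 1) + 1] := by
    rw [lgt_append, lgt_append, lgt_heavy hhs]
    unfold lgt
    simp
  have key := hf (pl P ++ 2 :: A) (B ++ 5 :: pr Q) [3 * i + 1] ([3 * (i + 1) + 1] ++ hs) 0 rfl
    (by rw [lg]; simpa using hk) (by rw [lg]; simp) (by
      intro c hc hc3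
      rcases List.mem_append.1 hc with hc | hc
      · have : c = 3 * i + 1 := by simpa using hc
        rw [this]; exact hmem i (by omega)
      · rcases List.mem_append.1 hc with hc | hc
        · have : c = 3 * (i + 1) + 1 := by simpa using hc
          rw [this]; exact hmem (i + 1) (by omega)
        · exact absurd (hhs c hc) hc3)
  have f1 : pl P ++ 2 :: A ++ 0 :: ([3 * i + 1] ++ ([3 * (i + 1) + 1] ++ hs ++ 0 ::
      (B ++ 5 :: pr Q))) =
      W P Q (X N 0 ++ (cr g (X N 0) 0 i ++ ([3 * (i + 1) + 1] ++ T) ++ X N 0)) := by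
    unfold W
    have : X N 0 ++ (cr g (X N 0) 0 i ++ ([3 * (i + 1) + 1] ++ T) ++ X N 0) =
        (X N 0 ++ cr g (X N 0) 0 i) ++ ([3 * (i + 1) + 1] ++ (T ++ X N 0)) := by simp
    rw [this, hA, hB]
    simp
  have f2 : pl P ++ 2 :: A ++ 0 :: ([3 * i + 1] ++ (X N 0 ++ ([3 * (i + 1) + 1] ++ hs ++ 0 ::
      (B ++ 5 :: pr Q)))) =
      W P Q (X N 0 ++ (cr g (X N 0) 0 i ++ (X N 0 ++ ([3 * (i + 1) + 1] ++ T)) ++ X N 0)) := by
    unfold W
    have : X N 0 ++ (cr g (X N 0) 0 i ++ (X N 0 ++ ([3 * (i + 1) + 1] ++ T)) ++ X N 0) =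
        (X N 0 ++ cr g (X N 0) 0 i) ++ (X N 0 ++ ([3 * (i + 1) + 1] ++ (T ++ X N 0))) := by simp
    rw [this, hA, hB]
    simp
  rw [f1, f2] at key
  exact key


theorem iv (w : Wo N S) {k : ℕ} (hf : Free N S k) {P Q : List ℕ}
    (hp : (P ++ Q).Perm (List.range (k + 1))) {g : ℕ → Bool} (hg : Gone g k)
    (hc : 2 ≤ k ∨ ∀ j, 1 ≤ j → j ≤ k → g j = true) :
    S (W P Q (X N 0 ++ ((cr g [] 0 k).flatMap (th N) ++ X N 0)))
      (W P Q (X N 0 ++ (cr g (X N 0) 0 k ++ X N 0))) := by
  by_cases h : ∀ j, 1 ≤ j → j ≤ k → g j = true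
  · rw [cr_th g 0 k h]; exact w.refl _
  · have hk : 2 ≤ k := hc.resolve_right h
    push Not at h
    obtain ⟨j, h1, h2, h3⟩ := h
    exact gap w hk hf hp hg h1 h2 (by simpa using h3)

theorem rep_of_mem {m : List ℕ} (h : ∀ a ∈ m, a = 0) : m = X m.length 0 :=
  List.eq_replicate_of_mem h

theorem zcat (hvy : HvyStmt) (w : Wo N S) {a b : ℕ} (h : (N + a) % N = b % N) (hb : 1 ≤ b) :
    S (X N 0 ++ X a 0) (X b 0) := by
  have hN := w.pos
  rw [show X N 0 ++ X a 0 = X (N + a) 0 from List.replicate_append_replicate]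
  exact zz hvy w (by omega) hb h

/-- **RIG.** -/
theorem rig (hvy : HvyStmt) (hend : EndStmt) : RigStmt := by
  intro N S P Q g k w hk hf hp hg m1 m2 h hok hcont h1 h2
  have hN := w.pos
  -- facts on the right block
  have hcnt : ∀ c, c % 3 ≠ 0 → c ∈ m1 ++ m2 → m1.count c + m2.count c = 1 := by
    intro c hc3 hc
    have hc' : c ∈ m1 ++ 0 :: m2 := by
      rcases List.mem_append.1 hc with hc | hc
      · exact List.mem_append_left _ hc
      · exact List.mem_append_right _ (List.mem_cons_of_mem _ hc)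
    rcases hok.mem c hc' with h3 | ⟨e, he, rfl⟩
    · exact absurd h3 hc3
    · have := hok.one e he
      rw [List.count_append, List.count_cons] at this
      have h0 : ((0 : ℕ) == 3 * e + 1) = false := by simp
      rw [h0] at this
      simpa using this
  have hlight : ∀ c, c % 3 ≠ 0 → c ∈ m1 ++ m2 → ∃ e ∈ P ++ Q, c = 3 * e + 1 := by
    intro c hc3 hc
    have hc' : c ∈ m1 ++ 0 :: m2 := by
      rcases List.mem_append.1 hc with hc | hc
      · exact List.mem_append_left _ hc
      · exact List.mem_append_right _ (List.mem_cons_of_mem _ hc)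
    rcases hok.mem c hc' with h3 | h3
    · exact absurd h3 hc3
    · exact h3
  have h1' : 1 ∉ m2 := by
    intro hh
    have := hcnt 1 (by omega) (List.mem_append_left _ h1)
    have a1 := List.count_pos_iff.2 h1
    have a2 := List.count_pos_iff.2 hh
    omega
  have h2' : 3 * k + 1 ∉ m1 := by
    intro hh
    have := hcnt (3 * k + 1) (by omega) (List.mem_append_left _ hh)
    have a1 := List.count_pos_iff.2 hh
    have a2 := List.count_pos_iff.2 h2
    omega
  -- (i)
  have hi0 := w.sub (g0 N) (fun h hh a ha => by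
    unfold g0 at ha
    split_ifs at ha
    · rw [List.eq_of_mem_replicate ha]
    · have : a = h := by simpa using ha
      rw [this]; exact hh) h
  have hfix : ∀ a, a % 3 ≠ 0 → g0 N a = [a] := fun a ha => g0_ne (by omega)
  rw [W_flat _ hfix, W_flat _ hfix, List.flatMap_append, List.flatMap_append, List.flatMap_append,
    flat_zero, flat_id (g0 N) (cr g [] 0 k) (fun a ha => g0_ne (cr_no0 g 0 k a ha)),
    List.flatMap_cons] at hi0
  have e0 : g0 N 0 = X N 0 := by unfold g0; rw [if_pos rfl]
  rw [e0] at hi0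
  set m1' := m1.flatMap (g0 N) with hm1'
  set m2' := m2.flatMap (g0 N) with hm2'
  have hX : S (X N 0) (X (N * N) 0) :=
    zz hvy w hN (Nat.mul_pos hN hN) (by simp)
  have hi : S (W P Q (X N 0 ++ (cr g [] 0 k ++ X N 0))) (W P Q (m1' ++ (X N 0 ++ m2'))) := by
    refine w.trans (wapp w ?_) hi0
    exact w.app hX (w.app (w.refl _) hX)
  -- side conditions
  have hP : ∀ e ∈ P ++ Q, e ≤ k := fun e he => by
    have := List.mem_range.1 (hp.subset he)
    omega
  have cnt' : ∀ (m : List ℕ) (c : ℕ), c % 3 ≠ 0 → (m.flatMap (g0 N)).count c = m.count c := by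
    intro m c hc
    induction m with
    | nil => rfl
    | cons a m ih =>
      rw [List.flatMap_cons, List.count_append, ih, List.count_cons]
      unfold g0
      split_ifs with h3 h4 h4
      · have : a = c := by simpa using h4
        omega
      · rw [List.count_replicate]
        have : ((0 : ℕ) == c) = false := by
          rw [beq_eq_false_iff_ne]; intro h; rw [← h] at hc; exact hc rfl
        rw [this]; simp
      · have : a = c := by simpa using h4
        subst this
        simp; omega
      · have h5 : (a == c) = false := by simpa using h4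
        rw [List.count_cons, h5]; simp
  have mem' : ∀ (m : List ℕ) (c : ℕ), c % 3 ≠ 0 → c ∈ m.flatMap (g0 N) → c ∈ m := by
    intro m c hc hm
    obtain ⟨a, ha, hca⟩ := List.mem_flatMap.1 hm
    rw [mem_g0 hca hc]; exact ha
  have s1 := side1 (k := k) (m := m1') (T := (List.range k).map (fun e => 3 * e + 1))
    (by
      intro c hc hc3
      rw [hm1', cnt' _ _ hc3]
      have := hcnt c hc3 (List.mem_append_left _ (mem' _ _ hc3 hc))
      omega)
    (by
      intro c hc hc3
      have hcm := mem' _ _ hc3 hc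
      obtain ⟨e, he, rfl⟩ := hlight c hc3 (List.mem_append_left _ hcm)
      rw [List.mem_map]
      refine ⟨e, ?_, rfl⟩
      rw [List.mem_range]
      have := hP e he
      rcases Nat.lt_or_ge e k with h | h
      · exact h
      · have : e = k := by omega
        subst this
        exact absurd hcm h2')
    (by simp)
  have s2 := side1 (k := k) (m := m2') (T := (List.range k).map (fun e => 3 * (e + 1) + 1))
    (by
      intro c hc hc3
      rw [hm2', cnt' _ _ hc3]
      have := hcnt c hc3 (List.mem_append_right _ (mem' _ _ hc3 hc))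
      omega)
    (by
      intro c hc hc3
      have hcm := mem' _ _ hc3 hc
      obtain ⟨e, he, rfl⟩ := hlight c hc3 (List.mem_append_right _ hcm)
      rw [List.mem_map]
      have h5 := hP e he
      have h6 : e ≠ 0 := by
        rintro rfl
        exact h1' hcm
      exact ⟨e - 1, List.mem_range.2 (by omega), by
        have : e - 1 + 1 = e := by omega
        rw [this]⟩)
    (by simp)
  have ctx : ∀ c, c % 3 ≠ 0 → c ∈ m1 ++ m2 → c ∈ pl P ∨ c ∈ pr Q := by
    intro c hc3 hc
    obtain ⟨e, he, rfl⟩ := hlight c hc3 hc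
    rcases List.mem_append.1 he with h | h
    · exact Or.inl (mem_pl h)
    · exact Or.inr (mem_pr h)
  -- (ii)
  have no25 : ∀ a ∈ (X N 0 ++ (cr g [] 0 k ++ X N 0)) ++ (m1' ++ (X N 0 ++ m2')),
      a ≠ 2 ∧ a ≠ 5 := by
    intro a ha
    have key : a % 3 ≠ 2 := by
      intro h3
      rcases List.mem_append.1 ha with ha | ha
      · rcases List.mem_append.1 ha with ha | ha
        · rw [List.eq_of_mem_replicate ha] at h3; omega
        · rcases List.mem_append.1 ha with ha | ha
          · exact cr_no2 g 0 k a ha h3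
          · rw [List.eq_of_mem_replicate ha] at h3; omega
      · rcases List.mem_append.1 ha with ha | ha
        · obtain ⟨e, _, rfl⟩ := hlight a (by omega) (List.mem_append_left _ (mem' _ _ (by omega) ha))
          omega
        · rcases List.mem_append.1 ha with ha | ha
          · rw [List.eq_of_mem_replicate ha] at h3; omega
          · obtain ⟨e, _, rfl⟩ := hlight a (by omega)
              (List.mem_append_right _ (mem' _ _ (by omega) ha))
            omega
    constructor <;> rintro rfl <;> exact key rfl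
  have ii := hend N S w P Q _ _ (X N 0) (X N 0) no25 hi
  have hz := ZZ hvy w
  have a1 : S (W P Q (X N 0 ++ (cr g [] 0 k ++ X N 0)))
      (W P Q (X N 0 ++ (m1' ++ (X N 0 ++ (m2' ++ X N 0))))) := by
    refine w.trans (wapp w ?_) (w.trans ii (wapp w ?_))
    · have : S (X N 0 ++ (cr g [] 0 k ++ X N 0))
          ((X N 0 ++ X N 0) ++ (cr g [] 0 k ++ (X N 0 ++ X N 0))) :=
        w.app (w.symm hz) (w.app (w.refl _) (w.symm hz))
      have e : X N 0 ++ (X N 0 ++ (cr g [] 0 k ++ X N 0) ++ X N 0) =
          (X N 0 ++ X N 0) ++ (cr g [] 0 k ++ (X N 0 ++ X N 0)) := by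
        simp only [List.append_assoc]
      rw [e]; exact this
    · have e : X N 0 ++ (m1' ++ (X N 0 ++ m2') ++ X N 0) =
          X N 0 ++ (m1' ++ (X N 0 ++ (m2' ++ X N 0))) := by simp only [List.append_assoc]
      rw [e]; exact w.refl _
  by_cases hcase : 2 ≤ k ∨ ∀ j, 1 ≤ j → j ≤ k → g j = true
  · -- (iii)
    have f1 := fill_th w hf (pl P ++ [2]) (m2' ++ (X N 0 ++ 5 :: pr Q)) m1' s1.1 s1.2 (by
      intro c hc hc3
      rcases ctx c hc3 (List.mem_append_left _ (mem' _ _ hc3 hc)) with h | h
      · exact Or.inl (List.mem_append_left _ h)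
      · exact Or.inr (by simp [h]))
    have f2 := fill_th w hf (pl P ++ 2 :: (X N 0 ++ m1'.flatMap (th N))) (5 :: pr Q) m2'
      s2.1 s2.2 (by
      intro c hc hc3
      rcases ctx c hc3 (List.mem_append_right _ (mem' _ _ hc3 hc)) with h | h
      · exact Or.inl (List.mem_append_left _ h)
      · exact Or.inr (by simp [h]))
    have a2 : S (W P Q (X N 0 ++ (m1' ++ (X N 0 ++ (m2' ++ X N 0)))))
        (W P Q (X N 0 ++ (m1'.flatMap (th N) ++ (X N 0 ++ (m2'.flatMap (th N) ++ X N 0))))) := by
      have e1 : W P Q (X N 0 ++ (m1' ++ (X N 0 ++ (m2' ++ X N 0)))) =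
          pl P ++ [2] ++ (X N 0 ++ (m1' ++ (X N 0 ++ (m2' ++ (X N 0 ++ 5 :: pr Q))))) := by
        unfold W; simp
      have e2 : pl P ++ [2] ++ (X N 0 ++ (m1'.flatMap (th N) ++ (X N 0 ++
          (m2' ++ (X N 0 ++ 5 :: pr Q))))) =
          pl P ++ 2 :: (X N 0 ++ m1'.flatMap (th N)) ++ (X N 0 ++ (m2' ++
            (X N 0 ++ 5 :: pr Q))) := by simp
      have e3 : W P Q (X N 0 ++ (m1'.flatMap (th N) ++ (X N 0 ++ (m2'.flatMap (th N) ++
          X N 0)))) = pl P ++ 2 :: (X N 0 ++ m1'.flatMap (th N)) ++ (X N 0 ++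
            (m2'.flatMap (th N) ++ (X N 0 ++ 5 :: pr Q))) := by
        unfold W; simp
      rw [e1, e3]
      exact w.trans f1 (by rw [e2]; exact f2)
    -- the markers
    have hj := w.sub (th N) (fun h hh a ha => by
      unfold th at ha
      split_ifs at ha
      · rcases List.mem_cons.1 ha with h1 | h1
        · rw [h1]; exact hh
        · rw [List.eq_of_mem_replicate h1]
      · have : a = h := by simpa using ha
        rw [this]; exact hh) hi
    have thfix : ∀ a, a % 3 ≠ 0 → th N a = [a] := by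
      intro a ha
      unfold th
      rw [if_neg]
      intro h; exact ha h.1
    have thX : (X N 0).flatMap (th N) = X N 0 := by
      apply flat_id
      intro a ha
      rw [List.eq_of_mem_replicate ha]
      unfold th
      rw [if_neg]
      intro h; exact h.2 rfl
    rw [W_flat _ thfix, W_flat _ thfix, List.flatMap_append, List.flatMap_append, thX,
      List.flatMap_append, List.flatMap_append, thX] at hj
    have thmem : ∀ (m : List ℕ) (c : ℕ), c % 3 ≠ 0 → c ∈ m.flatMap (th N) → c ∈ m := by
      intro m c hc hm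
      obtain ⟨a, ha, hca⟩ := List.mem_flatMap.1 hm
      rw [mem_th hca hc]; exact ha
    have no25' : ∀ a ∈ (X N 0 ++ ((cr g [] 0 k).flatMap (th N) ++ X N 0)) ++
        (m1'.flatMap (th N) ++ (X N 0 ++ m2'.flatMap (th N))), a ≠ 2 ∧ a ≠ 5 := by
      intro a ha
      have key : a % 3 ≠ 2 := by
        intro h3
        rcases List.mem_append.1 ha with ha | ha
        · rcases List.mem_append.1 ha with ha | ha
          · rw [List.eq_of_mem_replicate ha] at h3; omega
          · rcases List.mem_append.1 ha with ha | ha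
            · exact cr_no2 g 0 k a (thmem _ _ (by omega) ha) h3
            · rw [List.eq_of_mem_replicate ha] at h3; omega
        · rcases List.mem_append.1 ha with ha | ha
          · obtain ⟨e, _, rfl⟩ := hlight a (by omega)
              (List.mem_append_left _ (mem' _ _ (by omega) (thmem _ _ (by omega) ha)))
            omega
          · rcases List.mem_append.1 ha with ha | ha
            · rw [List.eq_of_mem_replicate ha] at h3; omega
            · obtain ⟨e, _, rfl⟩ := hlight a (by omega)
                (List.mem_append_right _ (mem' _ _ (by omega) (thmem _ _ (by omega) ha)))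
              omega
      constructor <;> rintro rfl <;> exact key rfl
    have jj := hend N S w P Q _ _ (X N 0) (X N 0) no25' hj
    have a3 : S (W P Q (X N 0 ++ (m1'.flatMap (th N) ++ (X N 0 ++ (m2'.flatMap (th N) ++ X N 0)))))
        (W P Q (X N 0 ++ ((cr g [] 0 k).flatMap (th N) ++ X N 0))) := by
      have e : X N 0 ++ (m1'.flatMap (th N) ++ (X N 0 ++ m2'.flatMap (th N)) ++ X N 0) =
          X N 0 ++ (m1'.flatMap (th N) ++ (X N 0 ++ (m2'.flatMap (th N) ++ X N 0))) := by simp
      rw [e] at jj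
      refine w.trans (w.symm jj) (wapp w ?_)
      have e : X N 0 ++ (X N 0 ++ ((cr g [] 0 k).flatMap (th N) ++ X N 0) ++ X N 0) =
          (X N 0 ++ X N 0) ++ ((cr g [] 0 k).flatMap (th N) ++ (X N 0 ++ X N 0)) := by
        simp only [List.append_assoc]
      rw [e]
      exact w.app hz (w.app (w.refl _) hz)
    exact w.trans a1 (w.trans a2 (w.trans a3 (iv w hf hp hg hcase)))
  · -- (v)
    push Not at hcase
    obtain ⟨hk2, j, hj1, hj2, hj3⟩ := hcase
    obtain rfl : k = 1 := by omega
    obtain rfl : j = 1 := by omega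
    have hg1 : g 1 = false := by simpa using hj3
    have hcr : ∀ s, cr g s 0 1 = [1] ++ (s ++ [4]) := by
      intro s
      change [3 * 0 + 1] ++ (mk g (0 + 1) ++ (s ++ [3 * (0 + (0 + 1)) + 1])) = _
      have : mk g (0 + 1) = [] := by unfold mk; simp [hg1]
      rw [this]; rfl
    have hlet : ∀ a ∈ m1 ++ m2, a = 0 ∨ a = 1 ∨ a = 4 := by
      intro a ha
      have := hcont a ha
      rw [hcr] at this
      rcases List.mem_append.1 this with h | h
      · exact Or.inl (List.eq_of_mem_replicate h)
      · right; simpa using h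
    obtain ⟨u1, u2, hu⟩ := List.append_of_mem h1
    obtain ⟨v1, v2, hv⟩ := List.append_of_mem h2
    have c1 := hcnt 1 (by omega) (List.mem_append_left _ h1)
    have c4 := hcnt 4 (by omega) (List.mem_append_right _ h2)
    have n4 : 4 ∉ m1 := h2'
    rw [hu, List.count_append, List.count_cons] at c1
    rw [hv, List.count_append, List.count_cons] at c4
    simp only [Nat.mul_one, beq_self_eq_true, if_true] at c1 c4
    have z1 : ∀ a ∈ u1, a = 0 := by
      intro a ha
      rcases hlet a (by rw [hu]; simp [ha]) with h | h | h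
      · exact h
      · subst h; have := List.count_pos_iff.2 ha; omega
      · subst h; exact absurd (by rw [hu]; simp [ha]) n4
    have z2 : ∀ a ∈ u2, a = 0 := by
      intro a ha
      rcases hlet a (by rw [hu]; simp [ha]) with h | h | h
      · exact h
      · subst h; have := List.count_pos_iff.2 ha; omega
      · subst h; exact absurd (by rw [hu]; simp [ha]) n4
    have z3 : ∀ a ∈ v1, a = 0 := by
      intro a ha
      rcases hlet a (by rw [hv]; simp [ha]) with h | h | h
      · exact h
      · subst h; exact absurd (by rw [hv]; simp [ha]) h1'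
      · subst h
        have := List.count_pos_iff.2 ha
        omega
    have z4 : ∀ a ∈ v2, a = 0 := by
      intro a ha
      rcases hlet a (by rw [hv]; simp [ha]) with h | h | h
      · exact h
      · subst h; exact absurd (by rw [hv]; simp [ha]) h1'
      · subst h
        have := List.count_pos_iff.2 ha
        omega
    have e1 : m1' = X (u1.length * N) 0 ++ ([1] ++ X (u2.length * N) 0) := by
      rw [hm1', hu, rep_of_mem z1, rep_of_mem z2, List.flatMap_append, List.flatMap_cons,
        flat_zero, flat_zero, g0_ne (by omega)]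
      simp
    have e2 : m2' = X (v1.length * N) 0 ++ ([4] ++ X (v2.length * N) 0) := by
      rw [hm2', hv, rep_of_mem z3, rep_of_mem z4, List.flatMap_append, List.flatMap_cons,
        flat_zero, flat_zero, g0_ne (by omega)]
      simp
    have q1 : S (X N 0 ++ X (u1.length * N) 0) (X N 0) := zcat hvy w (by simp) hN
    have q2 : S (X (u2.length * N) 0 ++ (X N 0 ++ X (v1.length * N) 0)) (X N 0) := by
      rw [show X N 0 ++ X (v1.length * N) 0 = X (N + v1.length * N) 0 from
        List.replicate_append_replicate]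
      rw [show X (u2.length * N) 0 ++ X (N + v1.length * N) 0 =
        X (u2.length * N + (N + v1.length * N)) 0 from List.replicate_append_replicate]
      exact zz hvy w (by omega) hN (by simp)
    have q3 : S (X (v2.length * N) 0 ++ X N 0) (X N 0) := by
      rw [show X (v2.length * N) 0 ++ X N 0 = X (v2.length * N + N) 0 from
        List.replicate_append_replicate]
      exact zz hvy w (by omega) hN (by simp)
    unfold Run
    refine w.trans a1 (wapp w ?_)
    rw [hcr, e1, e2]
    have f1 : X N 0 ++ (X (u1.length * N) 0 ++ ([1] ++ X (u2.length * N) 0) ++ (X N 0 ++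
        (X (v1.length * N) 0 ++ ([4] ++ X (v2.length * N) 0) ++ X N 0))) =
        (X N 0 ++ X (u1.length * N) 0) ++ ([1] ++ ((X (u2.length * N) 0 ++ (X N 0 ++
          X (v1.length * N) 0)) ++ ([4] ++ (X (v2.length * N) 0 ++ X N 0)))) := by
      simp only [List.append_assoc]
    have f2 : X N 0 ++ ([1] ++ (X N 0 ++ [4]) ++ X N 0) =
        X N 0 ++ ([1] ++ (X N 0 ++ ([4] ++ X N 0))) := by simp only [List.append_assoc]
    rw [f1, f2]
    exact w.app q1 (w.app (w.refl _) (w.app q2 (w.app (w.refl _) q3)))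

end Pool.Agent.MWV.H29
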