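import Pool.Agent.Helper10_MWV.FRS
import Pool.Agent.Helper10_MWV.INW
import Pool.Agent.Helper11_MWV.MRK
import Pool.Agent.Helper14_MWV.NIS
import Pool.Agent.Helper15_MWV.FCA
import Pool.Agent.Helper19_MWV.END
import Pool.Agent.Helper23_MWV.TAU
import Pool.Agent.Helper26_MWV.RH1
import Pool.Agent.Helper26_MWV.SBW
import Pool.Agent.Helper27_MWV.GTR
import Pool.Agent.Helper28_MWV.REM
import Pool.Agent.Helper29_MWV.LBK
import Pool.Agent.Helper29_MWV.RIG
import Pool.Agent.Helper34_MWV.DEC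
import Pool.Agent.Helper36_MWV.STT
import Pool.Agent.Helper39_MWV.CTX
import Pool.Agent.Helper39_MWV.IBM
import Pool.Agent.Helper3_MWV.DCB
import Pool.Agent.Helper3_MWV.PPM
import Pool.Agent.Helper44_MWV.FRM
import Pool.Agent.Helper47_MWV.NOB
import Pool.Agent.Helper49_MWV.MKP
import Pool.Agent.Helper4_MWV.HVY
import Pool.Agent.Helper51_MWV.FCB
import Pool.Agent.Helper51_MWV.PAR
import Pool.Agent.Helper53_MWV.UNQ
import Pool.Agent.Helper5_MWV.GST
import Pool.Agent.Helper60_MWV.LBF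
import Pool.Agent.Helper60_MWV.PJM
import Pool.Agent.Helper62_MWV.RH2
import Pool.Agent.Helper64_MWV.CV2
import Pool.Agent.Helper65_MWV.YIN
import Pool.Agent.Helper66_MWV.ORD
import Pool.Agent.Helper67_MWV.FIL
import Pool.Agent.Helper67_MWV.STS
import Pool.Agent.Helper67_MWV.TOP
import Pool.Agent.Helper6_MWV.FR1
import Pool.Agent.Helper76_MWV.INR
import Pool.Agent.Helper77_MWV.CLN
import Pool.Agent.Helper80_MWV.STR
import Pool.Agent.Helper89_MWV.PCS
import Pool.Agent.Helper89_MWV.WOB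
import Pool.Agent.Helper93_MWV.PEN
import Pool.Agent.Helper94_MWV.GDI
import Pool.Agent.Helper94_MWV.SIG
import Pool.Agent.Helper97_MWV.COV

/-!
# World A: assembly of squad MWV (MP_23468a_al)
-/

namespace Pool.Agent.MWV.H29

open Pool.Agent.MWV

theorem rhvy : HvyStmt := Pool.Agent.MWV.H4.hvy
theorem rnis : NisStmt := Pool.Agent.MWV.H14.nis
theorem rpar : ParStmt := Pool.Agent.MWV.H51.par rnis
theorem rwob : WobStmt := Pool.Agent.MWV.H89.wob
theorem rsbw : SbwStmt := Pool.Agent.MWV.H26.sbw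
theorem rend : EndStmt := Pool.Agent.MWV.H19.endS
theorem rctx : CtxStmt := Pool.Agent.MWV.H39.ctx
theorem rinw : InwStmt := Pool.Agent.MWV.H10.inw
theorem rdec : DecStmt := Pool.Agent.MWV.H34.dec rnis rpar
theorem rinr : InrStmt := Pool.Agent.MWV.H76.inr rhvy
theorem rfr1 : Fr1Stmt := Pool.Agent.MWV.H6.fr1 rhvy
theorem rfrs : FrsStmt := Pool.Agent.MWV.H10.frs rhvy rinw
theorem rgdi : GdiStmt := Pool.Agent.MWV.H94.gdi rinr
theorem rgst : GstStmt := Pool.Agent.MWV.H5.gst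
theorem rcln : ClnStmt := Pool.Agent.MWV.H77.cln rhvy rgdi rgst
theorem rgtr : GtrStmt := Pool.Agent.MWV.H27.gtr
theorem rrig : RigStmt := Pool.Agent.MWV.H29.rig rhvy rend
theorem rfca : FcaStmt := Pool.Agent.MWV.H15.fca rhvy rrig
theorem rfcb : FcbStmt := Pool.Agent.MWV.H51.fcb rhvy rrig rend
theorem runq : UnqStmt := Pool.Agent.MWV.H53.unq
theorem rrem : RemStmt := Pool.Agent.MWV.H28.rem rhvy rctx rend
theorem rppm : PpmStmt := Pool.Agent.MWV.H3.ppm
theorem rpjm : PjmStmt := Pool.Agent.MWV.H60.pjm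
theorem rlbf : LbfStmt := Pool.Agent.MWV.H60.lbf
theorem rlbk : LbkStmt := Pool.Agent.MWV.H29.lbk rppm
theorem rdcb : DcbStmt := Pool.Agent.MWV.H3.dcb rdec rppm rlbk
theorem rnob : NobStmt := Pool.Agent.MWV.H47.nob rsbw rppm rpjm rlbf rdcb rrig
theorem rord : OrdStmt := Pool.Agent.MWV.H66.ord rsbw rppm rlbk rdcb
theorem rmkp : MkpStmt := Pool.Agent.MWV.H49.mkp rhvy rsbw rppm rlbk
theorem rmrk : MrkStmt := Pool.Agent.MWV.H11.mrk rsbw rppm rpjm rlbk rdcb rord rmkp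
theorem ryin : YinStmt := Pool.Agent.MWV.H65.yin rhvy rend rsbw rppm rpjm rlbf rdcb rnob rord rrig
theorem rcov : CovStmt := Pool.Agent.MWV.H97.cov rppm rdcb rnob rord
theorem rfrm : FrmStmt := Pool.Agent.MWV.H44.frm
theorem rpcs : PcsStmt := Pool.Agent.MWV.H89Pcs.pcs
theorem rcv2 : Cv2Stmt := Pool.Agent.MWV.H64.cv2 rpcs
theorem ribm : IbmStmt := Pool.Agent.MWV.H39.ibm
theorem rsig : SigStmt := Pool.Agent.MWV.H94.sig rppm rlbk rdcb rord rmkp rcv2
theorem rtau : TauStmt := Pool.Agent.MWV.H23.tau rppm rlbk rdcb rord rmkp rcv2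
theorem rrh1 : Rh1Stmt := Pool.Agent.MWV.H26.rh1 rppm rdcb rord rcv2
theorem rrh2 : Rh2Stmt := Pool.Agent.MWV.H62.rh2 rppm rdcb rnob rord ryin
theorem rsts : StsStmt := Pool.Agent.MWV.H67.sts rppm rlbk rdcb rfrm rmrk rcov rsig rgtr rgst rcln ribm
theorem rstt : SttStmt := Pool.Agent.MWV.H36.stt rppm rlbk rdcb rfrm rmrk rcov rtau rgtr rgst rcln ribm
theorem rstr : StrStmt := Pool.Agent.MWV.H80.str rppm rlbk rdcb rfrm rmrk rcov rrh1 rrh2 rgtr rgst rcln ribm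
theorem rpen : PenStmt := Pool.Agent.MWV.H93.pen rppm rpjm rsbw rlbf rsts rstt rstr
theorem rtop : TopStmt := Pool.Agent.MWV.H67.top rfr1 rfrs rfca rfcb runq rrem rpen
theorem rfil : FilStmt := Pool.Agent.MWV.H67.fil rwob rtop

end Pool.Agent.MWV.H29
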