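import Pool.Agent.Helper29_MWV.ASM
import Pool.Agent.Helper96_MWV.FilR
import Pool.Agent.Helper96_MWV.It2

/-!
# The heavy runs of the world `x²y² ≈ y²x²` (MP_23468a_al), all periods
-/

set_option autoImplicit false

namespace Pool.Agent.MWV.H29

open Pool.Agent.MWV

/-- **Heavy runs, all periods.** -/
theorem rfs (n : ℕ) : Pool.Agent.Helper96_MWV.RfS n := by
  intro β hw hb hs
  refine Pool.Agent.Helper96_MWV.rfb_of hb.ap hb.pos ?_
  have hc := Pool.Agent.Helper96_MWV.cm_of hb hs.1
  exact rfil β n hb.pos hw.md hw.iso hb.ap (hc 0 3)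

end Pool.Agent.MWV.H29
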